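import Pool.Agent.H512.G.Core
import Pool.Agent.H512.IT.Abel

set_option autoImplicit false
set_option linter.unusedSectionVars false

/-!
# Mixed group determinants: the theorem for finite commutative groups
-/

namespace Pool.Agent.H512.G

open NumberField Pool.Agent.W289.SL Pool.Agent.H512.IT
open scoped Nat

variable {p : ℕ} [hp : Fact p.Prime]

section

variable {A Δ : Type} [CommGroup A] [Fintype A] [DecidableEq A] [CommGroup Δ] [Fintype Δ]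
  [DecidableEq Δ]

/-- the Fourier coefficients -/
noncomputable def Fc (f : A → ℂ_[p]) (κ : A →* A) (i : ℕ) (ψ : A →* ℂ_[p]ˣ) : ℂ_[p] :=
  ∑ h : A, ((ψ h : ℂ_[p]ˣ) : ℂ_[p])⁻¹ * f (κ^[i] h)

lemma sum_chars_zero [Fintype (Δ →* ℂ_[p]ˣ)] {δ : Δ} (hδ : δ ≠ 1) :
    ∑ ω : Δ →* ℂ_[p]ˣ, ((ω δ : ℂ_[p]ˣ) : ℂ_[p]) = 0 := by
  obtain ⟨η, hη⟩ := CommGroup.exists_apply_ne_one_of_hasEnoughRootsOfUnity Δ ℂ_[p] (a := δ) hδ
  have h1 : ((η δ : ℂ_[p]ˣ) : ℂ_[p]) * ∑ ψ : Δ →* ℂ_[p]ˣ, ((ψ δ : ℂ_[p]ˣ) : ℂ_[p]) =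
      ∑ ψ : Δ →* ℂ_[p]ˣ, ((ψ δ : ℂ_[p]ˣ) : ℂ_[p]) := by
    rw [Finset.mul_sum]
    rw [← Equiv.sum_comp (Equiv.mulLeft η) (fun ψ : Δ →* ℂ_[p]ˣ => ((ψ δ : ℂ_[p]ˣ) : ℂ_[p]))]
    refine Finset.sum_congr rfl fun ψ _ => ?_
    rw [Equiv.coe_mulLeft, MonoidHom.mul_apply, Units.val_mul]
  have h2 : (((η δ : ℂ_[p]ˣ) : ℂ_[p]) - 1) *
      ∑ ψ : Δ →* ℂ_[p]ˣ, ((ψ δ : ℂ_[p]ˣ) : ℂ_[p]) = 0 := by
    rw [sub_mul, h1, one_mul, sub_self]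
  rcases mul_eq_zero.1 h2 with h3 | h3
  · exact absurd (Units.ext (sub_eq_zero.1 h3)) hη
  · exact h3

/-- separation of the residue classes -/
lemma sep [Fintype (Δ →* ℂ_[p]ˣ)] (f : A → ℂ_[p]) (κ : A →* A) (res : A →* Δ) (ix : Δ → ℕ)
    (v : A → ℂ_[p]) (hv : ∀ h, ∑ b, f (κ^[ix (res h)] (h * b)) * v b = 0)
    (ψ₀ : A →* ℂ_[p]ˣ) (δ : Δ) :
    ∑ ω : Δ →* ℂ_[p]ˣ, ((ω δ : ℂ_[p]ˣ) : ℂ_[p]) * (Fc f κ (ix δ) (ψ₀ * ω.comp res) *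
      ∑ b, (((ψ₀ * ω.comp res) b : ℂ_[p]ˣ) : ℂ_[p]) * v b) = 0 := by
  set i := ix δ with hi
  -- the product of the Fourier coefficients
  have h1 : ∀ ψ : A →* ℂ_[p]ˣ, Fc f κ i ψ * ∑ b, ((ψ b : ℂ_[p]ˣ) : ℂ_[p]) * v b =
      ∑ h, ((ψ h : ℂ_[p]ˣ) : ℂ_[p])⁻¹ * ∑ b, f (κ^[i] (h * b)) * v b := by
    intro ψ
    have h2 : ∀ b, Fc f κ i ψ * (((ψ b : ℂ_[p]ˣ) : ℂ_[p]) * v b) =
        ∑ h, ((ψ h : ℂ_[p]ˣ) : ℂ_[p])⁻¹ * (f (κ^[i] (h * b)) * v b) := by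
      intro b
      unfold Fc
      rw [← Equiv.sum_comp (Equiv.mulRight b), Finset.sum_mul]
      refine Finset.sum_congr rfl fun h _ => ?_
      rw [Equiv.coe_mulRight, map_mul, Units.val_mul]
      have h3 : ((ψ b : ℂ_[p]ˣ) : ℂ_[p]) ≠ 0 := Units.ne_zero _
      field_simp
    rw [Finset.mul_sum, Finset.sum_congr rfl (fun b _ => h2 b), Finset.sum_comm]
    refine Finset.sum_congr rfl fun h _ => ?_
    rw [Finset.mul_sum]
  have h2 : ∀ ω : Δ →* ℂ_[p]ˣ, ((ω δ : ℂ_[p]ˣ) : ℂ_[p]) * (Fc f κ i (ψ₀ * ω.comp res) *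
      ∑ b, (((ψ₀ * ω.comp res) b : ℂ_[p]ˣ) : ℂ_[p]) * v b) =
      ∑ h, ((ω (δ * (res h)⁻¹) : ℂ_[p]ˣ) : ℂ_[p]) * (((ψ₀ h : ℂ_[p]ˣ) : ℂ_[p])⁻¹ *
        ∑ b, f (κ^[i] (h * b)) * v b) := by
    intro ω
    rw [h1, Finset.mul_sum]
    refine Finset.sum_congr rfl fun h _ => ?_
    rw [MonoidHom.mul_apply, MonoidHom.comp_apply, Units.val_mul, map_mul, Units.val_mul,
      map_inv, Units.val_inv_eq_inv_val, mul_inv]
    ring
  rw [Finset.sum_congr rfl (fun ω _ => h2 ω), Finset.sum_comm]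
  apply Finset.sum_eq_zero
  intro h _
  rw [← Finset.sum_mul]
  by_cases hh : res h = δ
  · have h3 := hv h
    rw [hh, ← hi] at h3
    rw [h3, mul_zero, mul_zero]
  · rw [sum_chars_zero, zero_mul]
    intro h3
    rw [mul_inv_eq_one] at h3
    exact hh h3.symm

/-- **Mixed group determinants.** -/
theorem mixed_det {l a : ℕ} [hl : Fact l.Prime] (hld : ¬ l ∣ Fintype.card Δ)
    (hp2 : p = l ∨ (Fintype.card Δ)! ^ (l ^ a * Fintype.card Δ) < p) (f : A → ℂ_[p])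
    (κ : A →* A) (hκ : Function.Injective κ) (hper : ∀ h, κ^[l ^ a] h = h) (res : A →* Δ)
    (hres : ∀ h, res (κ h) = res h)
    (hne : ∀ i ψ, Fc f κ i ψ ≠ 0)
    (hτ : ∀ n₀ : ℕ, ¬ p ∣ n₀ → ∃ τ : ℂ_[p] ≃+* ℂ_[p], Isom τ ∧
      (∀ c : ℂ_[p], (∃ z : PadicAlgCl p, z ^ n₀ = 1 ∧ ‖c - (z : ℂ_[p])‖ < 1) → ‖τ c - c‖ < 1) ∧
      (∀ (ψ : A →* ℂ_[p]ˣ) (h : A), τ ((ψ (κ h) : ℂ_[p]ˣ) : ℂ_[p]) = ((ψ h : ℂ_[p]ˣ) : ℂ_[p])) ∧
      ∃ u : A, ∀ h, τ (f h) = f (u * h))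
    (ix : Δ → ℕ) (v : A → ℂ_[p]) (hv : ∀ h, ∑ b, f (κ^[ix (res h)] (h * b)) * v b = 0) :
    v = 0 := by
  classical
  obtain ⟨e⟩ := CommGroup.monoidHom_mulEquiv_of_hasEnoughRootsOfUnity Δ ℂ_[p]
  have : Finite (Δ →* ℂ_[p]ˣ) := Finite.of_equiv Δ e.symm.toEquiv
  have : Fintype (Δ →* ℂ_[p]ˣ) := Fintype.ofFinite _
  have hχn : ∀ (ψ : A →* ℂ_[p]ˣ) (h : A), ‖((ψ h : ℂ_[p]ˣ) : ℂ_[p])‖ = 1 := by
    intro ψ h
    have h1 : ((ψ h : ℂ_[p]ˣ) : ℂ_[p]) ^ Fintype.card A = 1 := by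
      rw [← Units.val_pow_eq_pow_val, ← map_pow, pow_card_eq_one, map_one, Units.val_one]
    have h2 := congrArg norm h1
    rw [norm_pow, norm_one] at h2
    exact (pow_eq_one_iff_of_nonneg (norm_nonneg _) Fintype.card_ne_zero).1 h2
  let m : ℕ := l ^ a + ∑ δ, ix δ
  have hκi : ∀ i, Function.Injective (κ^[i]) := fun i => hκ.iterate i
  have hκs : ∀ i, Function.Surjective (κ^[i]) := fun i => Finite.surjective_of_injective (hκi i)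
  have hκm : ∀ i (x y : A), κ^[i] (x * y) = κ^[i] x * κ^[i] y := fun i x y =>
    iterate_map_mul κ i x y
  have hresi : ∀ i h, res (κ^[i] h) = res h := by
    intro i
    induction i with
    | zero => intro h; rfl
    | succ i ih => intro h; rw [Function.iterate_succ_apply, ih, hres]
  -- the claim for one character
  have main : ∀ ψ₀ : A →* ℂ_[p]ˣ, ∑ b, ((ψ₀ b : ℂ_[p]ˣ) : ℂ_[p]) * v b = 0 := by
    intro ψ₀
    let ψ : (Δ →* ℂ_[p]ˣ) → (A →* ℂ_[p]ˣ) := fun ω => ψ₀ * ω.comp res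
    have hψ : ∀ ω h, ((ψ ω h : ℂ_[p]ˣ) : ℂ_[p]) =
        ((ψ₀ h : ℂ_[p]ˣ) : ℂ_[p]) * ((ω (res h) : ℂ_[p]ˣ) : ℂ_[p]) := fun ω h => rfl
    let F : ℕ → (Δ →* ℂ_[p]ˣ) → ℂ_[p] := fun i ω => Fc f κ i (ψ ω)
    -- the automorphism
    obtain ⟨n₀, hn₀, hteich⟩ := exists_teich_family (p := p)
      (Finset.range (m + 1) ×ˢ (Finset.univ : Finset (Δ →* ℂ_[p]ˣ)))
      (fun x => F (x.1 + 1) x.2 / F x.1 x.2)
    obtain ⟨τ, hτi, hτr, hτψ, u, hu⟩ := hτ n₀ hn₀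
    choose c hc using fun i => hκs i u⁻¹
    have hstep : ∀ i ω, F (i + 1) ω = τ ((ψ ω (c i) : ℂ_[p]ˣ) : ℂ_[p]) * τ (F i ω) := by
      intro i ω
      change (∑ h : A, ((ψ ω h : ℂ_[p]ˣ) : ℂ_[p])⁻¹ * f (κ^[i + 1] h)) = _ *
        τ (∑ h : A, ((ψ ω h : ℂ_[p]ˣ) : ℂ_[p])⁻¹ * f (κ^[i] h))
      rw [map_sum, Finset.mul_sum]
      have hbij : Function.Bijective (fun h => κ h * c i) :=
        (Finite.injective_iff_bijective).1 (fun x y hxy => hκ (mul_right_cancel hxy))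
      rw [← Equiv.sum_comp (Equiv.ofBijective _ hbij) (fun h => τ ((ψ ω (c i) : ℂ_[p]ˣ) : ℂ_[p]) *
        τ (((ψ ω h : ℂ_[p]ˣ) : ℂ_[p])⁻¹ * f (κ^[i] h)))]
      refine Finset.sum_congr rfl fun h _ => ?_
      rw [Equiv.ofBijective_apply, map_mul τ, map_inv₀, hu, map_mul, Units.val_mul, map_mul τ,
        hτψ, hκm, hc, ← Function.iterate_succ_apply]
      have h1 : u * (κ^[i + 1] h * u⁻¹) = κ^[i + 1] h := by
        rw [mul_comm (κ^[i + 1] h), mul_inv_cancel_left]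
      rw [h1]
      have h2 : τ ((ψ ω (c i) : ℂ_[p]ˣ) : ℂ_[p]) ≠ 0 := by
        rw [Ne, map_eq_zero]
        exact Units.ne_zero _
      field_simp
    have hR1 : ∀ i ω, ‖F (i + 1) ω / F i ω‖ = 1 := by
      intro i ω
      have h1 : ‖F i ω‖ ≠ 0 := norm_ne_zero_iff.2 (hne _ _)
      rw [norm_div, hstep, norm_mul, hτi, hτi, hχn, one_mul, div_self h1]
    have hresc : ∀ i, res (c (i + 1) * (c i)⁻¹) = 1 := by
      intro i
      have h1 : ∀ j, res (c j) = res u⁻¹ := by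
        intro j
        rw [← hresi j (c j), hc]
      rw [map_mul, map_inv, h1, h1, mul_inv_cancel]
    have hcore := core (p := p) hld hp2 ix m (by
        intro δ
        have h1 := Finset.single_le_sum (f := ix) (fun _ _ => Nat.zero_le _) (Finset.mem_univ δ)
        change ix δ ≤ l ^ a + ∑ δ, ix δ
        omega) (Nat.le_add_right _ _) F (fun ω => ∑ b, ((ψ ω b : ℂ_[p]ˣ) : ℂ_[p]) * v b)
      (fun i ω => hne _ _) (by
        intro ω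
        change (∑ h : A, ((ψ ω h : ℂ_[p]ˣ) : ℂ_[p])⁻¹ * f (κ^[l ^ a] h)) =
          ∑ h : A, ((ψ ω h : ℂ_[p]ˣ) : ℂ_[p])⁻¹ * f (κ^[0] h)
        refine Finset.sum_congr rfl fun h _ => ?_
        rw [hper]
        rfl) hR1 (fun i => τ ((ψ₀ (c (i + 1) * (c i)⁻¹) : ℂ_[p]ˣ) : ℂ_[p])) (by
        intro i
        rw [hτi, hχn]) (by
        intro i ω hi
        obtain ⟨z, hz, hz'⟩ := hteich (i, ω) (by
          rw [Finset.mem_product, Finset.mem_range]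
          exact ⟨by simp only; omega, Finset.mem_univ _⟩) (hR1 i ω)
        have h1 : ‖τ (F (i + 1) ω / F i ω) - F (i + 1) ω / F i ω‖ < 1 := hτr _ ⟨z, hz, hz'⟩
        have h2 : F (i + 2) ω / F (i + 1) ω =
            τ ((ψ₀ (c (i + 1) * (c i)⁻¹) : ℂ_[p]ˣ) : ℂ_[p]) * τ (F (i + 1) ω / F i ω) := by
          have h3 : ((ψ₀ (c (i + 1) * (c i)⁻¹) : ℂ_[p]ˣ) : ℂ_[p]) =
              ((ψ ω (c (i + 1)) : ℂ_[p]ˣ) : ℂ_[p]) / ((ψ ω (c i) : ℂ_[p]ˣ) : ℂ_[p]) := by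
            have h4 : ((ψ₀ (c (i + 1) * (c i)⁻¹) : ℂ_[p]ˣ) : ℂ_[p]) =
                ((ψ ω (c (i + 1) * (c i)⁻¹) : ℂ_[p]ˣ) : ℂ_[p]) := by
              rw [hψ, hresc, map_one, Units.val_one, mul_one]
            rw [h4, map_mul, map_inv, Units.val_mul, Units.val_inv_eq_inv_val, div_eq_mul_inv]
          have h5 : τ (F i ω) ≠ 0 := by
            rw [Ne, map_eq_zero]
            exact hne _ _
          have h6 : τ ((ψ ω (c i) : ℂ_[p]ˣ) : ℂ_[p]) ≠ 0 := by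
            rw [Ne, map_eq_zero]
            exact Units.ne_zero _
          have h7 : F (i + 2) ω = τ ((ψ ω (c (i + 1)) : ℂ_[p]ˣ) : ℂ_[p]) * τ (F (i + 1) ω) :=
            hstep (i + 1) ω
          have h8 := hstep i ω
          rw [h7, h3, map_div₀, map_div₀]
          generalize τ (F (i + 1) ω) = X
          rw [h8]
          field_simp
        rw [h2, ← mul_sub, norm_mul, hτi, hχn, one_mul]
        exact h1) (by
        intro δ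
        exact sep f κ res ix v hv ψ₀ δ) 1
    have h2 : ψ 1 = ψ₀ := by
      ext h
      rw [hψ]
      simp
    simp only [h2] at hcore
    exact hcore
  funext b
  have h1 := zero_of_chars (p := p) (fun h : A => v (b * h⁻¹)) (by
    intro ψ
    have h2 := main ψ
    rw [← Equiv.sum_comp ((Equiv.inv A).trans (Equiv.mulLeft b))] at h2
    have h3 : ∑ h, ((ψ h⁻¹ : ℂ_[p]ˣ) : ℂ_[p]) • v (b * h⁻¹) =
        ((ψ b : ℂ_[p]ˣ) : ℂ_[p])⁻¹ * ∑ h, ((ψ (((Equiv.inv A).trans (Equiv.mulLeft b)) h) :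
          ℂ_[p]ˣ) : ℂ_[p]) * v (((Equiv.inv A).trans (Equiv.mulLeft b)) h) := by
      rw [Finset.mul_sum]
      refine Finset.sum_congr rfl fun h _ => ?_
      have h4 : ((ψ b : ℂ_[p]ˣ) : ℂ_[p]) ≠ 0 := Units.ne_zero _
      rw [Equiv.trans_apply, Equiv.inv_apply, Equiv.coe_mulLeft, map_mul, Units.val_mul,
        smul_eq_mul]
      field_simp
    rw [h3, h2, mul_zero])
  simpa using h1

end

end Pool.Agent.H512.G
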