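import Pool.Agent.H512.G.Unit

set_option autoImplicit false
set_option linter.unusedSectionVars false

/-!
# The linear algebra behind the mixed group determinants
-/

namespace Pool.Agent.H512.G

open NumberField Pool.Agent.W289.SL Pool.Agent.H512.IT
open scoped Nat

variable {p : ℕ} [hp : Fact p.Prime]

lemma mul_close {a a' b b' : ℂ_[p]} (ha : ‖a‖ = 1) (hb' : ‖b'‖ = 1) (h : ‖a - a'‖ < 1)
    (h' : ‖b - b'‖ < 1) : ‖a * b - a' * b'‖ < 1 := by
  have h1 : a * b - a' * b' = a * (b - b') + (a - a') * b' := by ring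
  rw [h1]
  refine lt_of_le_of_lt (IsUltrametricDist.norm_add_le_max _ _) (max_lt ?_ ?_)
  · rw [norm_mul, ha, one_mul]
    exact h'
  · rw [norm_mul, hb', mul_one]
    exact h

lemma inv_close {a a' : ℂ_[p]} (ha : ‖a‖ = 1) (ha' : ‖a'‖ = 1) (h : ‖a - a'‖ < 1) :
    ‖a⁻¹ - a'⁻¹‖ < 1 := by
  have h0 : a ≠ 0 := by rintro rfl; simp at ha
  have h0' : a' ≠ 0 := by rintro rfl; simp at ha'
  have h1 : a⁻¹ - a'⁻¹ = -((a - a') * (a⁻¹ * a'⁻¹)) := by
    field_simp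
    ring
  rw [h1, norm_neg, norm_mul, norm_mul, norm_inv, norm_inv, ha, ha', inv_one, mul_one, mul_one]
  exact h

lemma div_close {a a' b b' : ℂ_[p]} (ha : ‖a‖ = 1) (hb : ‖b‖ = 1) (hb' : ‖b'‖ = 1)
    (h : ‖a - a'‖ < 1) (h' : ‖b - b'‖ < 1) : ‖a / b - a' / b'‖ < 1 := by
  rw [div_eq_mul_inv, div_eq_mul_inv]
  apply mul_close ha _ h (inv_close hb hb' h')
  rw [norm_inv, hb', inv_one]

lemma close_trans {a b c : ℂ_[p]} (h : ‖a - b‖ < 1) (h' : ‖b - c‖ < 1) : ‖a - c‖ < 1 := by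
  have h1 : a - c = (a - b) + (b - c) := by ring
  rw [h1]
  exact lt_of_le_of_lt (IsUltrametricDist.norm_add_le_max _ _) (max_lt h h')

lemma close_symm {a b : ℂ_[p]} (h : ‖a - b‖ < 1) : ‖b - a‖ < 1 := by
  rwa [norm_sub_rev]

/-- Hensel's lemma for roots of unity in `ℂ_p` -/
lemma exists_root_near' {n : ℕ} (hn : 0 < n) {c : ℂ_[p]} (hc : ‖c‖ = 1) (h : ‖c ^ n - 1‖ < 1) :
    ∃ z : ℂ_[p], z ^ n = 1 ∧ ‖c - z‖ < 1 := by
  obtain ⟨v, hv⟩ : ∃ v : PadicAlgCl p, ‖c - (v : ℂ_[p])‖ < 1 := by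
    have h1 := Metric.mem_closure_iff.1
      ((UniformSpace.Completion.denseRange_coe (α := PadicAlgCl p)) c) 1 one_pos
    obtain ⟨_, ⟨v, rfl⟩, hv⟩ := h1
    exact ⟨v, by rwa [dist_eq_norm] at hv⟩
  have hv1 : ‖(v : ℂ_[p])‖ = 1 := norm_one_of_close hc (close_symm hv)
  have h2 : ‖(v : ℂ_[p]) ^ n - 1‖ < 1 := by
    apply close_trans _ h
    have h3 : ∀ k : ℕ, ‖(v : ℂ_[p]) ^ k - c ^ k‖ < 1 := by
      intro k
      induction k with
      | zero => simp
      | succ k ih =>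
        rw [pow_succ, pow_succ]
        apply mul_close _ hc ih (close_symm hv)
        rw [norm_pow, hv1, one_pow]
    exact h3 n
  have h3 : ‖v ^ n - 1‖ < 1 := by
    have h4 : (v : ℂ_[p]) ^ n - 1 = ((v ^ n - 1 : PadicAlgCl p) : ℂ_[p]) := by
      rw [UniformSpace.Completion.coe_sub]
      congr 1
      exact (map_pow (algebraMap (PadicAlgCl p) ℂ_[p]) v n).symm
    rw [h4, UniformSpace.Completion.norm_coe] at h2
    exact h2
  obtain ⟨z, hz, hz'⟩ := exists_root_near hn h3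
  refine ⟨(z : ℂ_[p]), ?_, ?_⟩
  · have h4 := congrArg (algebraMap (PadicAlgCl p) ℂ_[p]) hz
    rw [map_pow, map_one] at h4
    exact h4
  · apply close_trans hv
    have h4 : (v : ℂ_[p]) - (z : ℂ_[p]) = ((v - z : PadicAlgCl p) : ℂ_[p]) := by
      rw [UniformSpace.Completion.coe_sub]
    rw [h4, UniformSpace.Completion.norm_coe]
    exact hz'

section

variable {Δ : Type} [CommGroup Δ] [Fintype Δ] [DecidableEq Δ] [Fintype (Δ →* ℂ_[p]ˣ)]

theorem core {l a : ℕ} [hl : Fact l.Prime] (hld : ¬ l ∣ Fintype.card Δ)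
    (hp2 : p = l ∨ (Fintype.card Δ)! ^ (l ^ a * Fintype.card Δ) < p) (ix : Δ → ℕ) (m : ℕ)
    (hm : ∀ δ, ix δ ≤ m) (hm' : l ^ a ≤ m)
    (F : ℕ → (Δ →* ℂ_[p]ˣ) → ℂ_[p]) (v : (Δ →* ℂ_[p]ˣ) → ℂ_[p])
    (hF : ∀ i ω, F i ω ≠ 0) (hper : ∀ ω, F (l ^ a) ω = F 0 ω)
    (hR1 : ∀ i ω, ‖F (i + 1) ω / F i ω‖ = 1) (ν : ℕ → ℂ_[p]) (hν : ∀ i, ‖ν i‖ = 1)
    (hR : ∀ i ω, i < m → ‖F (i + 2) ω / F (i + 1) ω - ν i * (F (i + 1) ω / F i ω)‖ < 1)
    (h : ∀ δ, ∑ ω : Δ →* ℂ_[p]ˣ, ((ω δ : ℂ_[p]ˣ) : ℂ_[p]) * (F (ix δ) ω * v ω) = 0)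
    (ω : Δ →* ℂ_[p]ˣ) : v ω = 0 := by
  classical
  obtain ⟨e'⟩ := CommGroup.monoidHom_mulEquiv_of_hasEnoughRootsOfUnity Δ ℂ_[p]
  let e : Δ ≃ (Δ →* ℂ_[p]ˣ) := e'.symm.toEquiv
  have hd0 : 0 < Fintype.card Δ := Fintype.card_pos
  have hr0 : 0 < l ^ a := pow_pos hl.out.pos _
  -- the quotients
  let R : ℕ → (Δ →* ℂ_[p]ˣ) → ℂ_[p] := fun i ω => F (i + 1) ω / F i ω
  have hR1' : ∀ i ω, ‖R i ω‖ = 1 := hR1
  let t : (Δ →* ℂ_[p]ˣ) → ℂ_[p] := fun ω => R 0 ω / R 0 1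
  have ht1 : ∀ ω, ‖t ω‖ = 1 := fun ω => by rw [norm_div, hR1', hR1', div_one]
  have claim1 : ∀ ω i, i ≤ m → ‖R i ω / R i 1 - t ω‖ < 1 := by
    intro ω i
    induction i with
    | zero => intro _; simp [t]
    | succ i ih =>
      intro hi
      refine close_trans ?_ (ih (by omega))
      have h1 : R i ω / R i 1 = (ν i * R i ω) / (ν i * R i 1) := by
        have h2 : ν i ≠ 0 := by
          intro h3
          have h4 := hν i
          rw [h3, norm_zero] at h4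
          exact zero_ne_one h4
        rw [mul_div_mul_left _ _ h2]
      rw [h1]
      apply div_close (hR1' _ _) (hR1' _ _)
      · rw [norm_mul, hν, hR1', mul_one]
      · exact hR i ω (by omega)
      · exact hR i 1 (by omega)
  let G : ℕ → (Δ →* ℂ_[p]ˣ) → ℂ_[p] := fun i ω => F i ω / F 0 ω
  have hG1 : ∀ i ω, ‖G i ω‖ = 1 := by
    intro i ω
    induction i with
    | zero => simp [G, div_self (hF 0 ω)]
    | succ i ih =>
      have h1 : G (i + 1) ω = R i ω * G i ω := by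
        have h2 := hF i ω
        simp only [G, R]
        field_simp
      rw [h1, norm_mul, hR1', ih, mul_one]
  have claim2 : ∀ ω i, i ≤ m → ‖G i ω / G i 1 - t ω ^ i‖ < 1 := by
    intro ω i
    induction i with
    | zero => intro _; simp [G, div_self (hF 0 ω), div_self (hF 0 1)]
    | succ i ih =>
      intro hi
      have h1 : ∀ ω, G (i + 1) ω = R i ω * G i ω := by
        intro ω
        have h2 := hF i ω
        simp only [G, R]
        field_simp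
      have h2 : G (i + 1) ω / G (i + 1) 1 = (R i ω / R i 1) * (G i ω / G i 1) := by
        rw [h1, h1, mul_div_mul_comm]
      rw [h2, pow_succ, mul_comm (t ω ^ i)]
      apply mul_close
      · rw [norm_div, hR1', hR1', div_one]
      · rw [norm_pow, ht1, one_pow]
      · exact claim1 ω i (by omega)
      · exact ih (by omega)
  have claim3 : ∀ ω, ‖t ω ^ l ^ a - 1‖ < 1 := by
    intro ω
    have h1 := claim2 ω (l ^ a) hm'
    have h2 : ∀ ω, G (l ^ a) ω = 1 := fun ω => by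
      simp only [G]
      rw [hper, div_self (hF 0 ω)]
    rw [h2, h2, div_one] at h1
    exact close_symm h1
  choose ζ hζ hζt using fun ω => exists_root_near' hr0 (ht1 ω) (claim3 ω)
  have hζ1 : ∀ ω, ‖ζ ω‖ = 1 := fun ω => norm_one_of_close (ht1 ω) (close_symm (hζt ω))
  have claim4 : ∀ ω i, ‖t ω ^ i - ζ ω ^ i‖ < 1 := by
    intro ω i
    induction i with
    | zero => simp
    | succ i ih =>
      rw [pow_succ, pow_succ]
      apply mul_close _ (hζ1 ω) ih (hζt ω)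
      rw [norm_pow, ht1, one_pow]
  -- the matrix
  let W : Δ → Δ → ℂ_[p] := fun δ j => ((e j δ : ℂ_[p]ˣ) : ℂ_[p])
  have hW : ∀ i j, W i j ^ Fintype.card Δ = 1 := by
    intro i j
    change ((e j i : ℂ_[p]ˣ) : ℂ_[p]) ^ _ = 1
    rw [← Units.val_pow_eq_pow_val, ← map_pow, pow_card_eq_one, map_one, Units.val_one]
  have hWn : ∀ i j, ‖W i j‖ = 1 := by
    intro i j
    have h3 := congrArg norm (hW i j)
    rw [norm_pow, norm_one] at h3
    exact (pow_eq_one_iff_of_nonneg (norm_nonneg _) hd0.ne').1 h3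
  have horth : ∀ j j', j ≠ j' → ∑ i, (W i j)⁻¹ * W i j' = 0 := by
    intro j j' hjj
    let f : Δ →* ℂ_[p] := (Units.coeHom ℂ_[p]).comp ((e j)⁻¹ * e j')
    have hf : f ≠ 1 := by
      intro h
      apply hjj
      apply e.injective
      ext i
      have h3 := congrArg (fun f : Δ →* ℂ_[p] => f i) h
      have h4 : ((e j i : ℂ_[p]ˣ) : ℂ_[p])⁻¹ * ((e j' i : ℂ_[p]ˣ) : ℂ_[p]) = 1 := by
        have h5 : f i = ((e j i : ℂ_[p]ˣ) : ℂ_[p])⁻¹ * ((e j' i : ℂ_[p]ˣ) : ℂ_[p]) := by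
          simp [f]
        rw [← h5]
        exact h3
      have h6 : ((e j i : ℂ_[p]ˣ) : ℂ_[p]) ≠ 0 := Units.ne_zero _
      field_simp at h4
      exact h4.symm
    have h3 := sum_hom_units_eq_zero f hf
    rw [← h3]
    refine Finset.sum_congr rfl fun i _ => ?_
    simp [f, W]
  let Z : Δ → Δ → ℂ_[p] := fun δ j => ζ (e j) ^ ix δ
  have hZ : ∀ i j, Z i j ^ l ^ a = 1 := by
    intro i j
    change (ζ (e j) ^ ix i) ^ l ^ a = 1
    rw [← pow_mul, mul_comm, pow_mul, hζ, one_pow]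
  have hZn : ∀ i j, ‖Z i j‖ = 1 := by
    intro i j
    change ‖ζ (e j) ^ ix i‖ = 1
    rw [norm_pow, hζ1, one_pow]
  have hdet := det_gen hld hp2 W Z hW hZ horth
  let M : Matrix Δ Δ ℂ_[p] := Matrix.of fun i j => W i j * (G (ix i) (e j) / G (ix i) 1)
  have hMdet : M.det ≠ 0 := by
    intro h0
    have h1 := det_diff M (Matrix.of fun i j => W i j * Z i j) (by
        intro i j
        change ‖W i j * (G (ix i) (e j) / G (ix i) 1)‖ ≤ 1
        rw [norm_mul, hWn, norm_div, hG1, hG1, div_one, mul_one]) (by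
        intro i j
        change ‖W i j * Z i j‖ ≤ 1
        rw [norm_mul, hWn, hZn, mul_one]) (by
        intro i j
        change ‖W i j * (G (ix i) (e j) / G (ix i) 1) - W i j * Z i j‖ < 1
        rw [← mul_sub, norm_mul, hWn, one_mul]
        exact close_trans (claim2 (e j) (ix i) (hm i)) (claim4 (e j) (ix i)))
    rw [h0, zero_sub, norm_neg, hdet] at h1
    exact lt_irrefl _ h1
  have hv : M.mulVec (fun j => F 0 (e j) * v (e j)) = 0 := by
    funext i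
    change ∑ j, (W i j * (G (ix i) (e j) / G (ix i) 1)) * (F 0 (e j) * v (e j)) = 0
    have h3 : ∀ j, (W i j * (G (ix i) (e j) / G (ix i) 1)) * (F 0 (e j) * v (e j)) =
        (G (ix i) 1)⁻¹ * (((e j i : ℂ_[p]ˣ) : ℂ_[p]) * (F (ix i) (e j) * v (e j))) := by
      intro j
      have h4 := hF 0 (e j)
      have h5 : G (ix i) (e j) * F 0 (e j) = F (ix i) (e j) := by
        simp only [G]
        field_simp
      rw [← h5]
      change ((e j i : ℂ_[p]ˣ) : ℂ_[p]) * _ * _ = _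
      rw [div_eq_mul_inv]
      ring
    rw [Finset.sum_congr rfl (fun j _ => h3 j), ← Finset.mul_sum,
      Equiv.sum_comp e (fun ω' : Δ →* ℂ_[p]ˣ => ((ω' i : ℂ_[p]ˣ) : ℂ_[p]) *
        (F (ix i) ω' * v ω')), h i, mul_zero]
  have h3 := Matrix.eq_zero_of_mulVec_eq_zero hMdet hv
  have h4 := congrFun h3 (e.symm ω)
  simp only [Equiv.apply_symm_apply, Pi.zero_apply] at h4
  exact (mul_eq_zero.1 h4).resolve_left (hF 0 ω)

end

end Pool.Agent.H512.G
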