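import Pool.Agent.H512.IT.Grp

set_option autoImplicit false
set_option linter.unusedSectionVars false

/-!
# An automorphism of a finite commutative group which is a power map, general version
-/

namespace Pool.Agent.H512.G

open Pool.Agent.H512.IT

section

variable {A : Type} [Group A] [Finite A] {p : ℕ} [hp : Fact p.Prime]

theorem exists_power' (hcomm : ∀ a b : A, a * b = b * a) (κ : A →* A)
    (hκ : Function.Injective κ) (B : Subgroup A) {a0 : ℕ}
    (hκB : ∀ b ∈ B, κ b = b ^ a0)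
    (hAB : ∀ a, κ a * a⁻¹ ∈ B) (r u : ℕ) (hr : ∀ a, κ^[r] a = a) (hu : ∀ a : A, a ^ u ∈ B)
    (hru : Nat.Coprime u r) (hpu : ¬ p ∣ u)
    (hfix : ∀ b ∈ B, (orderOf b).Coprime p → κ b = b) (n0 : ℕ) (hn0 : ¬ p ∣ n0) :
    ∃ a n e : ℕ, ¬ p ∣ n ∧ n0 ∣ n ∧ a.Coprime (n * p ^ e) ∧ a ≡ 1 [MOD n] ∧
      ∀ h : A, κ h = h ^ a ∧ h ^ (n * p ^ e) = 1 := by
  classical
  have hcard : Nat.card A ≠ 0 := Nat.card_pos.ne'
  obtain ⟨e, m, hm, hcm⟩ := Nat.exists_eq_pow_mul_and_not_dvd hcard p hp.out.ne_one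
  have hmpos : 0 < m := Nat.pos_of_ne_zero (by rintro rfl; exact hm (dvd_zero _))
  have hn0pos : 0 < n0 := Nat.pos_of_ne_zero (by rintro rfl; exact hn0 (dvd_zero _))
  have hpcop : ∀ x : ℕ, ¬ p ∣ x → Nat.Coprime p x := fun x hx =>
    (Nat.Prime.coprime_iff_not_dvd hp.out).2 hx
  have hn : ¬ p ∣ n0 * m := by
    rw [hp.out.dvd_mul]
    tauto
  -- the Chinese remainder theorem
  have hcop : Nat.Coprime (p ^ e) (n0 * m) := Nat.Coprime.pow_left _ (hpcop _ hn)
  obtain ⟨a, ha1, ha2⟩ := Nat.chineseRemainder hcop a0 1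
  have hord : ∀ h : A, h ^ (p ^ e * m) = 1 := by
    intro h
    rw [← hcm]
    exact pow_card_eq_one'
  have hmodpow : ∀ (h : A) (s x y : ℕ), h ^ s = 1 → x ≡ y [MOD s] → h ^ x = h ^ y := by
    intro h s x y hs hxy
    rw [pow_eq_pow_iff_modEq]
    exact hxy.of_dvd (orderOf_dvd_of_pow_eq_one hs)
  have key : ∀ h : A, κ h = h ^ a := by
    intro h
    -- the `p`-part
    have h1 : κ (h ^ m) = (h ^ m) ^ a := by
      have h2 : h ^ m ∈ B := by
        have h3 : (h ^ m) ^ p ^ e = 1 := by rw [← pow_mul, mul_comm, hord]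
        have h4 : Nat.Coprime u (orderOf (h ^ m)) :=
          Nat.Coprime.coprime_dvd_right (orderOf_dvd_of_pow_eq_one h3)
            (Nat.Coprime.pow_right _ (hpcop _ hpu).symm)
        obtain ⟨v, hv⟩ := exists_pow_eq_self_of_coprime h4
        rw [← hv]
        exact B.pow_mem (hu _) _
      rw [hκB _ h2]
      apply (hmodpow _ (p ^ e) _ _ _ ha1).symm
      rw [← pow_mul, mul_comm, hord]
    have h2 : κ (h ^ p ^ e) = (h ^ p ^ e) ^ a := by
      have h3 : (h ^ p ^ e) ^ m = 1 := by rw [← pow_mul, hord]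
      rw [fix_prime_to hcomm κ B hAB r u hr hu hru hfix (h := h ^ p ^ e)]
      · have h4 := hmodpow (h ^ p ^ e) m a 1 h3 (ha2.of_dvd (dvd_mul_left _ _))
        rw [h4, pow_one]
      · exact Nat.Coprime.coprime_dvd_left (orderOf_dvd_of_pow_eq_one h3) (hpcop _ hm).symm
    have hc : Commute (κ h) (h ^ a)⁻¹ := hcomm _ _
    have h3 : (κ h * (h ^ a)⁻¹) ^ m = 1 := by
      rw [hc.mul_pow, ← map_pow, h1, inv_pow, ← pow_mul, ← pow_mul, mul_comm m a,
        mul_inv_cancel]
    have h4 : (κ h * (h ^ a)⁻¹) ^ p ^ e = 1 := by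
      rw [hc.mul_pow, ← map_pow, h2, inv_pow, ← pow_mul, ← pow_mul, mul_comm a,
        mul_inv_cancel]
    have h5 : κ h * (h ^ a)⁻¹ = 1 := by
      rw [← orderOf_eq_one_iff]
      exact Nat.Coprime.eq_one_of_dvd (Nat.Coprime.coprime_dvd_left
        (orderOf_dvd_of_pow_eq_one h4) (Nat.Coprime.pow_left _ (hpcop _ hm)))
        (orderOf_dvd_of_pow_eq_one h3)
    rwa [mul_inv_eq_one] at h5
  refine ⟨a, n0 * m, e, hn, dvd_mul_right _ _, ?_, ha2, fun h => ⟨key h, ?_⟩⟩
  · apply Nat.Coprime.mul_right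
    · have h1 : Nat.gcd a (n0 * m) = Nat.gcd 1 (n0 * m) := ha2.gcd_eq
      rw [Nat.gcd_one_left] at h1
      exact h1
    · rcases Nat.eq_zero_or_pos e with he | he
      · rw [he, pow_zero]
        exact Nat.coprime_one_right _
      · apply Nat.Coprime.pow_right
        apply Nat.Coprime.symm
        apply hpcop
        intro hdvd
        have h1 : p ∣ Nat.card A := by
          rw [hcm]
          exact dvd_mul_of_dvd_left (dvd_pow_self p he.ne') _
        obtain ⟨x, hx⟩ := exists_prime_orderOf_dvd_card' p h1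
        have h2 : κ x = 1 := by
          rw [key]
          exact orderOf_dvd_iff_pow_eq_one.1 (hx ▸ hdvd)
        have h3 : x = 1 := hκ (by rw [h2, map_one])
        rw [h3, orderOf_one] at hx
        exact hp.out.ne_one hx.symm
  · have h1 : n0 * m * p ^ e = (p ^ e * m) * n0 := by ring
    rw [h1, pow_mul, hord, one_pow]

end

end Pool.Agent.H512.G
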