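import Pool.Agent.H512.IT.Tau
import Pool.Graph.R_seed8.W245.PB.BakerThmP

set_option autoImplicit false
set_option linter.unusedSectionVars false

/-!
# Logarithms of conjugates, and a consequence of Brumer's theorem
-/

namespace Pool.Agent.H512.G

open Pool.Agent.H512.IT

variable {p : ℕ} [hp : Fact p.Prime]

/-- The logarithm commutes with the automorphisms over `ℚ_p`. -/
lemma log_map {L : PadicAlgCl p → PadicAlgCl p} (hL : Pool.Agent.W245.PB.IsIwasawaLog p L)
    (σ : PadicAlgCl p ≃ₐ[ℚ_[p]] PadicAlgCl p) {y : PadicAlgCl p} (hy : y ≠ 0) :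
    L (σ y) = σ (L y) := by
  have hpne : (p : PadicAlgCl p) ≠ 0 := Nat.cast_ne_zero.2 hp.out.ne_zero
  -- near one
  have hnear : ∀ z : PadicAlgCl p, ‖z‖ < 1 → L (σ (1 + z)) = σ (L (1 + z)) := by
    intro z hz
    have h1 := (hL.ser z hz).map (σ : PadicAlgCl p →+* PadicAlgCl p) (continuous_gal σ)
    have h2 := hL.ser (σ z) (by rw [norm_gal]; exact hz)
    rw [map_add, map_one]
    refine h2.unique ?_
    convert h1 using 2 with n
    · simp only [Function.comp_apply]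
      change _ = σ ((-1 : PadicAlgCl p) ^ n * z ^ (n + 1) / ((n : PadicAlgCl p) + 1))
      simp only [map_div₀, map_mul, map_pow, map_neg, map_one, map_add, map_natCast]
    · rfl
  obtain ⟨m, r, hm, h⟩ := Pool.Agent.W245.PB.exists_near (p := p) hy
  have hlt : ‖y ^ m * (p : PadicAlgCl p) ^ r - 1‖ < 1 := by
    have hp2 : (2 : ℝ) ≤ p := by exact_mod_cast hp.out.two_le
    by_contra hcon
    push Not at hcon
    have h1 : (8 : ℝ) ≤ (p : ℝ) ^ 3 := by
      calc (8 : ℝ) = 2 ^ 3 := by norm_num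
        _ ≤ (p : ℝ) ^ 3 := by gcongr
    nlinarith
  have h1 := hnear _ hlt
  rw [add_sub_cancel] at h1
  have hym : y ^ m ≠ 0 := pow_ne_zero _ hy
  have hpr : (p : PadicAlgCl p) ^ r ≠ 0 := zpow_ne_zero _ hpne
  have hσy : σ y ≠ 0 := by simpa using hy
  rw [map_mul, map_pow, map_zpow₀, map_natCast, hL.mul _ _ (pow_ne_zero _ hσy) hpr,
    hL.mul _ _ hym hpr, hL.pow hσy, hL.pow hy, hL.zpow hpne, hL.prime, mul_zero, add_zero,
    add_zero, map_mul, map_natCast] at h1
  exact mul_left_cancel₀ (Nat.cast_ne_zero.2 hm.ne') h1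

/-- elements of finite order of `ℂ_p` come from algebraic elements of the algebraic closure -/
lemma exists_alg {n : ℕ} (hn : 0 < n) {z : ℂ_[p]} (hz : z ^ n = 1) :
    ∃ w : PadicAlgCl p, w ≠ 0 ∧ IsAlgebraic ℚ w ∧ (w : ℂ_[p]) = z := by
  have h1 : IsPrimitiveRoot z (orderOf z) := IsPrimitiveRoot.orderOf z
  have h2 : orderOf z ∣ n := orderOf_dvd_of_pow_eq_one hz
  obtain ⟨w, hw, hw'⟩ := exists_prim (Nat.pos_of_dvd_of_pos h2 hn) h1
  have hpos := Nat.pos_of_dvd_of_pos h2 hn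
  refine ⟨w, hw.ne_zero hpos.ne', ?_, hw'⟩
  have h3 : IsIntegral ℚ w := IsIntegral.of_pow hpos (by
    rw [hw.pow_eq_one]
    exact isIntegral_one)
  exact h3.isAlgebraic

/-- A combination of logarithms with roots of unity as coefficients does not vanish. -/
lemma sum_ne_zero {L : PadicAlgCl p → PadicAlgCl p} (hL : Pool.Agent.W245.PB.IsIwasawaLog p L)
    {ι : Type} [Fintype ι] [Nonempty ι] (α : ι → PadicAlgCl p)
    (hα0 : ∀ i, α i ≠ 0) (halg : ∀ i, IsAlgebraic ℚ (α i))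
    (hli : LinearIndependent ℚ fun i => L (α i)) {n : ℕ} (hn : 0 < n) (c : ι → ℂ_[p])
    (hc : ∀ i, c i ^ n = 1) : ∑ i, c i * ((L (α i) : PadicAlgCl p) : ℂ_[p]) ≠ 0 := by
  intro h0
  choose w hw0 hwa hw using fun i => exists_alg hn (hc i)
  have hinj : Function.Injective (algebraMap (PadicAlgCl p) ℂ_[p]) := RingHom.injective _
  have h1 : (0 : PadicAlgCl p) + ∑ i, w i * L (α i) = 0 := by
    apply hinj
    rw [zero_add, map_sum, map_zero, ← h0]
    refine Finset.sum_congr rfl fun i _ => ?_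
    rw [map_mul, ← hw i]
    rfl
  have h2 := Pool.Agent.W245.PB.brumer hL α hα0 halg hli 0 isAlgebraic_zero w hwa h1
  obtain ⟨i⟩ := ‹Nonempty ι›
  exact hw0 i (h2.2 i)

end Pool.Agent.H512.G
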