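import Pool.Agent.H512.G.Abs
import Pool.Agent.H512.G.Sigma
import Pool.Agent.H512.G.Log

set_option autoImplicit false
set_option linter.unusedSectionVars false

/-!
# Mixed group determinants of `p`-adic logarithms
-/

namespace Pool.Agent.H512.G

open NumberField Pool.Agent.W332.SL6 Pool.Agent.H512.IT
open scoped Nat

variable {p : ℕ} [hp : Fact p.Prime]

lemma coe_eq_map (x : PadicAlgCl p) : (x : ℂ_[p]) = algebraMap (PadicAlgCl p) ℂ_[p] x := rfl

lemma exists_lifts {K H : Type} [Field K] [NumberField K] [Field H] [NumberField H] [Algebra K H]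
    {g : H ≃ₐ[ℚ] H} (hg : ∀ y : K, ∃ z : K, g (algebraMap K H y) = algebraMap K H z) :
    ∃ γ : K ≃ₐ[ℚ] K, Lifts γ g := by
  choose z hz using hg
  have hinj := (algebraMap K H).injective
  let γ : K →+* K :=
    { toFun := z
      map_one' := hinj (by rw [← hz, map_one, map_one])
      map_mul' := fun a b => hinj (by rw [← hz, map_mul, map_mul, map_mul, hz, hz])
      map_zero' := hinj (by rw [← hz, map_zero, map_zero])
      map_add' := fun a b => hinj (by rw [← hz, map_add, map_add, map_add, hz, hz]) }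
  exact ⟨AlgEquiv.ofBijective γ.toRatAlgHom (AlgHom.bijective γ.toRatAlgHom), fun y => hz y⟩

theorem mixed {L : PadicAlgCl p → PadicAlgCl p} (hL : Pool.Agent.W245.PB.IsIwasawaLog p L)
    {k K H : Type} [Field k] [NumberField k] [Field K] [NumberField K] [Field H] [NumberField H]
    [Algebra k K] [Algebra K H] [Algebra k H] [IsScalarTower k K H]
    [FiniteDimensional k H] [FiniteDimensional K H] [FiniteDimensional k K]
    [IsGalois k K] [IsGalois k H] [IsGalois K H] [DecidableEq (H ≃ₐ[k] H)]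
    (hab : ∀ a b : H ≃ₐ[k] H, a * b = b * a) (s : H →+* PadicAlgCl p)
    (hs : ∀ y : k, ∃ c : ℚ_[p], s (algebraMap k H y) = algebraMap ℚ_[p] (PadicAlgCl p) c)
    (g : H ≃ₐ[ℚ] H) (hgk : ∀ y : k, ∃ z : k, g (algebraMap k H y) = algebraMap k H z)
    (hgK : ∀ y : K, ∃ z : K, g (algebraMap K H y) = algebraMap K H z)
    (hgab : ∀ (h : H ≃ₐ[k] H) (y : K), g (h (algebraMap K H y)) = h (g (algebraMap K H y)))
    (n : ℕ) (hgn : ∀ (h : H ≃ₐ[K] H) (y : H), g (h y) = (h ^ n) (g y))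
    (hn : ∀ h : H ≃ₐ[K] H, (orderOf h).Coprime p → h ^ n = h)
    (l a : ℕ) [hl : Fact l.Prime]
    (hgl : ∀ y : k, (g ^ l ^ a) (algebraMap k H y) = algebraMap k H y)
    (hld : ¬ l ∣ Module.finrank k K)
    (hp2 : p = l ∨ (Module.finrank k K)! ^ (l ^ a * Module.finrank k K) < p)
    (x : H) (hx : x ≠ 0) (hgx : g x = x)
    (hli : LinearIndependent ℚ fun h : H ≃ₐ[k] H => L (s (h x)))
    (ix : (K ≃ₐ[k] K) → ℕ) :
    (Matrix.of fun h h' : H ≃ₐ[k] H =>
      L (s ((g ^ ix (AlgEquiv.restrictNormalHom K h)) (h (h' x))))).det ≠ 0 := by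
  classical
  -- the restrictions of `g`
  obtain ⟨γk, hγk⟩ := exists_lifts hgk
  obtain ⟨γ, hγ⟩ := exists_lifts hgK
  -- the groups
  let res : (H ≃ₐ[k] H) →* (K ≃ₐ[k] K) := AlgEquiv.restrictNormalHom K
  have hres : ∀ (h : H ≃ₐ[k] H) (y : K), h (algebraMap K H y) = algebraMap K H (res h y) :=
    fun h y => (AlgEquiv.restrictNormal_commutes h K y).symm
  have hress : Function.Surjective res := AlgEquiv.restrictNormalHom_surjective H
  have hΔab : ∀ a b : K ≃ₐ[k] K, a * b = b * a := by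
    intro a b
    obtain ⟨a', rfl⟩ := hress a
    obtain ⟨b', rfl⟩ := hress b
    rw [← map_mul, hab, map_mul]
  have hγab : ∀ (c : K ≃ₐ[k] K) (y : K), γ (c y) = c (γ y) := by
    intro c y
    obtain ⟨c', rfl⟩ := hress c
    apply (algebraMap K H).injective
    rw [← hγ, ← hres, hgab, hγ, hres]
  let : CommGroup (H ≃ₐ[k] H) :=
    { (inferInstance : Group (H ≃ₐ[k] H)) with mul_comm := hab }
  let : CommGroup (K ≃ₐ[k] K) :=
    { (inferInstance : Group (K ≃ₐ[k] K)) with mul_comm := hΔab }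
  have hcard : Fintype.card (K ≃ₐ[k] K) = Module.finrank k K := by
    rw [← Nat.card_eq_fintype_card, IsGalois.card_aut_eq_finrank]
  have hd0 : 0 < Module.finrank k K := Module.finrank_pos
  have hpu : ¬ p ∣ Module.finrank k K := by
    rcases hp2 with h | h
    · rw [h]; exact hld
    · intro h2
      have h3 := Nat.le_of_dvd hd0 h2
      have h4 := Nat.self_le_factorial (Module.finrank k K)
      have h5 : (Module.finrank k K)! ≤ (Module.finrank k K)! ^ (l ^ a * Module.finrank k K) :=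
        Nat.le_self_pow (mul_pos (pow_pos hl.out.pos _) hd0).ne' _
      omega
  obtain ⟨a0, ha0⟩ : ∃ c : H ≃ₐ[k] H, ∀ y, (g ^ l ^ a) y = c y :=
    ⟨AlgEquiv.ofRingEquiv (f := ((g ^ l ^ a : H ≃ₐ[ℚ] H) : H ≃+* H)) (fun y => hgl y),
      fun y => rfl⟩
  let κ : (H ≃ₐ[k] H) →* (H ≃ₐ[k] H) := kap hγk
  have hκ : ∀ h y, g (h y) = κ h (g y) := kap_spec hγk
  have hgxi : ∀ i : ℕ, (g ^ i) x = x := by
    intro i
    induction i with
    | zero => rfl
    | succ i ih => rw [pow_succ, AlgEquiv.mul_apply, hgx, ih]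
  have hκx : ∀ (i : ℕ) (h : H ≃ₐ[k] H), (g ^ i) (h x) = (κ^[i] h) x := by
    intro i h
    rw [kap_iter hγk i h x, hgxi]
  let f : (H ≃ₐ[k] H) → ℂ_[p] := fun h => ((L (s (h x)) : PadicAlgCl p) : ℂ_[p])
  have hsne : ∀ h : H ≃ₐ[k] H, s (h x) ≠ 0 := by
    intro h
    rw [Ne, map_eq_zero, map_eq_zero]
    exact hx
  have hsalg : ∀ y : H, IsAlgebraic ℚ (s y) := by
    intro y
    have h1 : IsAlgebraic ℚ y := Algebra.IsAlgebraic.isAlgebraic y
    exact h1.algHom s.toRatAlgHom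
  intro hdet0
  -- a vector in the kernel
  have hdet1 : (Matrix.of fun h h' : H ≃ₐ[k] H => f (κ^[ix (res h)] (h * h'))).det = 0 := by
    have h1 := congrArg (algebraMap (PadicAlgCl p) ℂ_[p]) hdet0
    rw [RingHom.map_det, map_zero] at h1
    rw [← h1]
    congr 1
    ext h h'
    change ((L (s ((κ^[ix (res h)] (h * h')) x)) : PadicAlgCl p) : ℂ_[p]) =
      ((L (s ((g ^ ix (res h)) (h (h' x)))) : PadicAlgCl p) : ℂ_[p])
    rw [← hκx, AlgEquiv.mul_apply]
  obtain ⟨v, hv0, hv⟩ := Matrix.exists_mulVec_eq_zero_iff.2 hdet1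
  apply hv0
  refine mixed_det (p := p) (l := l) (a := a) (by rw [hcard]; exact hld) (by rw [hcard]; exact hp2)
    f κ (kap_injective hγk) (kap_iter_eq hab hγk ⟨a0, ha0⟩) res ?_ ?_ ?_ ix v ?_
  · intro h
    ext y
    obtain ⟨y', rfl⟩ := γ.surjective y
    apply (algebraMap K H).injective
    rw [← hres, ← hγ, ← hκ, hres, hγ, hγab]
  · intro i ψ
    unfold Fc
    apply sum_ne_zero hL (fun h => s ((κ^[i] h) x)) (fun h => hsne _) (fun h => hsalg _) ?_
      (n := Fintype.card (H ≃ₐ[k] H)) Fintype.card_pos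
    · intro h
      rw [inv_pow, ← Units.val_pow_eq_pow_val, ← map_pow, pow_card_eq_one, map_one,
        Units.val_one, inv_one]
    · exact hli.comp _ ((kap_injective hγk).iterate i)
  · intro n₀ hn₀
    obtain ⟨σ, hσ1, hσ2⟩ := exists_sigma' (p := p) hab hγab hγk hγ hgn
      (fun h hh y => by rw [hgn, hn h hh]) ⟨a0, ha0⟩
      (Nat.Coprime.pow_right a ((Nat.Prime.coprime_iff_not_dvd hl.out).2 hld).symm) hpu hn₀
    have hτi : Isom (ext σ) := ext_isom σ
    have hcoe : ∀ y : PadicAlgCl p, (ext σ).symm (y : ℂ_[p]) = ((σ.symm y : PadicAlgCl p) : ℂ_[p]) := by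
      intro y
      rw [RingEquiv.symm_apply_eq, ext_coe, AlgEquiv.apply_symm_apply]
    refine ⟨(ext σ).symm, hτi.symm, ?_, ?_, ?_⟩
    · intro c hc
      have h1 : ‖ext σ c - c‖ < 1 := resid hσ1 hc
      have h2 : ‖ext σ ((ext σ).symm c - c)‖ = ‖(ext σ).symm c - c‖ := hτi _
      rw [← h2, map_sub, RingEquiv.apply_symm_apply, norm_sub_rev]
      exact h1
    · intro ψ h
      rw [RingEquiv.symm_apply_eq]
      exact hσ2 ψ (κ h) h (fun y => hκ h y)
    · obtain ⟨u, hu⟩ := exists_aut (K := k) (((σ.symm : PadicAlgCl p ≃ₐ[ℚ_[p]] PadicAlgCl p) :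
          PadicAlgCl p →+* PadicAlgCl p).comp s) s (by
        ext y
        obtain ⟨c, hc⟩ := hs y
        change σ.symm (s (algebraMap k H y)) = s (algebraMap k H y)
        rw [hc, AlgEquiv.commutes])
      refine ⟨u, fun h => ?_⟩
      change (ext σ).symm ((L (s (h x)) : PadicAlgCl p) : ℂ_[p]) = _
      rw [hcoe, ← log_map hL σ.symm (hsne h)]
      have h1 : σ.symm (s (h x)) = s ((u * h) x) := RingHom.congr_fun hu (h x)
      rw [h1]
  · intro h
    exact congrFun hv h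

end Pool.Agent.H512.G
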