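import Pool.Agent.H512.IT.Rho
import Pool.Agent.H512.IT.Tau

set_option autoImplicit false
set_option linter.unusedSectionVars false

/-!
# Determinants of matrices of roots of unity which are units at `p`, general version
-/

namespace Pool.Agent.H512.G

open NumberField Pool.Agent.W289.SL Pool.Agent.H512.IT
open scoped Nat

variable {p : ℕ} [hp : Fact p.Prime]

lemma det_diff {ι : Type} [Fintype ι] [DecidableEq ι] (M M₀ : Matrix ι ι ℂ_[p])
    (hM : ∀ i j, ‖M i j‖ ≤ 1) (hM₀ : ∀ i j, ‖M₀ i j‖ ≤ 1) (h : ∀ i j, ‖M i j - M₀ i j‖ < 1) :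
    ‖M.det - M₀.det‖ < 1 := by
  rw [Matrix.det_apply, Matrix.det_apply, ← Finset.sum_sub_distrib]
  apply sum_lt_one
  intro σ _
  rw [← smul_sub]
  have h2 := prod_close Finset.univ (fun i => M (σ i) i) (fun i => M₀ (σ i) i)
    (fun i _ => hM _ _) (fun i _ => hM₀ _ _) (fun i _ => h _ _)
  rcases Int.units_eq_one_or (Equiv.Perm.sign σ) with h3 | h3
  · rw [h3, one_smul]
    exact h2
  · rw [h3, Units.neg_smul, one_smul, norm_neg]
    exact h2

lemma norm_one_of_close {a b : ℂ_[p]} (hb : ‖b‖ = 1) (h : ‖a - b‖ < 1) : ‖a‖ = 1 := by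
  have h4 := IsUltrametricDist.norm_eq_of_add_norm_lt_max (x := a) (y := -b) (by
    rw [← sub_eq_add_neg, norm_neg, hb]
    exact lt_of_lt_of_le h (le_max_right _ _))
  rw [h4, norm_neg, hb]

/-- roots of unity of `p`-power order are congruent to `1` -/
lemma root_near_one {a : ℕ} {z : ℂ_[p]} (hz : z ^ p ^ a = 1) : ‖z - 1‖ < 1 := by
  have hpos : 0 < p ^ a := pow_pos hp.out.pos _
  have h1 : IsPrimitiveRoot z (orderOf z) := IsPrimitiveRoot.orderOf z
  have h2 : orderOf z ∣ p ^ a := orderOf_dvd_of_pow_eq_one hz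
  obtain ⟨w, hw, hw'⟩ := exists_prim (Nat.pos_of_dvd_of_pos h2 hpos) h1
  obtain ⟨c, hc⟩ := h2
  have h3 : w ^ p ^ a = 1 := by rw [hc, pow_mul, hw.pow_eq_one, one_pow]
  have h4 : ‖w - 1‖ < 1 := by
    apply frob_inj_iter a
    · exact (norm_root hpos.ne' h3).le
    · rw [h3, sub_self, norm_zero]
      exact one_pos
  have h5 : z - 1 = ((w - 1 : PadicAlgCl p) : ℂ_[p]) := by
    rw [UniformSpace.Completion.coe_sub, hw']
    rfl
  rw [h5, UniformSpace.Completion.norm_coe]
  exact h4

section

variable {ι : Type} [Fintype ι] [DecidableEq ι]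

theorem det_gen_aux {E : Type} [Field E] [NumberField E] {l a : ℕ} [hl : Fact l.Prime]
    {N : ℕ} [NeZero N] [IsCyclotomicExtension {N} ℚ E] (hN : N = l ^ a * Fintype.card ι)
    (hld : ¬ l ∣ Fintype.card ι)
    (hp2 : p = l ∨ (Fintype.card ι)! ^ (l ^ a * Fintype.card ι) < p) (W Z : ι → ι → ℂ_[p])
    (hW : ∀ i j, W i j ^ Fintype.card ι = 1) (hZ : ∀ i j, Z i j ^ l ^ a = 1)
    (horth : ∀ j j', j ≠ j' → ∑ i, (W i j)⁻¹ * W i j' = 0) :
    ‖(Matrix.of fun i j => W i j * Z i j).det‖ = 1 := by
  classical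
  set d := Fintype.card ι with hd
  have hd0 : 0 < d := Nat.pos_of_ne_zero (by intro h; rw [h] at hld; exact hld (dvd_zero _))
  have hN0 : 0 < N := Nat.pos_of_ne_zero (NeZero.ne N)
  obtain ⟨j₀⟩ : Nonempty (E →+* ℂ_[p]) := inferInstance
  have hζ : IsPrimitiveRoot (IsCyclotomicExtension.zeta N ℚ E) N :=
    IsCyclotomicExtension.zeta_spec N ℚ E
  let z : 𝓞 E := hζ.toInteger
  have hz : IsPrimitiveRoot z N := hζ.toInteger_isPrimitiveRoot
  let f : 𝓞 E →+* ℂ_[p] := j₀.comp (algebraMap (𝓞 E) E)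
  have hf : Function.Injective f := j₀.injective.comp RingOfIntegers.coe_injective
  have hfx : ∀ x : 𝓞 E, f x = j₀ x := fun x => rfl
  have hfz : IsPrimitiveRoot (f z) N := hz.map_of_injective hf
  have hw : ∀ i j, ∃ n : ℕ, f z ^ n = W i j := by
    intro i j
    obtain ⟨n, -, hn⟩ := hfz.eq_pow_of_pow_eq_one (ξ := W i j) (by
      rw [hN, mul_comm, pow_mul, hW, one_pow])
    exact ⟨n, hn⟩
  choose n hn using hw
  have hw2 : ∀ i j, ∃ n : ℕ, f z ^ n = Z i j := by
    intro i j
    obtain ⟨n, -, hn⟩ := hfz.eq_pow_of_pow_eq_one (ξ := Z i j) (by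
      rw [hN, pow_mul, hZ, one_pow])
    exact ⟨n, hn⟩
  choose m hm using hw2
  let w : ι → ι → 𝓞 E := fun i j => z ^ n i j
  let y : ι → ι → 𝓞 E := fun i j => z ^ m i j
  have hwf : ∀ i j, f (w i j) = W i j := fun i j => by rw [← hn, map_pow]
  have hyf : ∀ i j, f (y i j) = Z i j := fun i j => by rw [← hm, map_pow]
  have hwd : ∀ i j, w i j ^ d = 1 := by
    intro i j
    apply hf
    rw [map_pow, hwf, hW, map_one]
  have hyd : ∀ i j, y i j ^ l ^ a = 1 := by
    intro i j
    apply hf
    rw [map_pow, hyf, hZ, map_one]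
  have hWne : ∀ i j, W i j ≠ 0 := by
    intro i j h
    have h1 := hW i j
    rw [h, zero_pow hd0.ne'] at h1
    exact zero_ne_one h1
  let WE : Matrix ι ι (𝓞 E) := Matrix.of fun i j => w i j
  let WS : Matrix ι ι (𝓞 E) := Matrix.of fun j i => w i j ^ (d - 1)
  let ME : Matrix ι ι (𝓞 E) := Matrix.of fun i j => w i j * y i j
  have hprod : WS * WE = Matrix.diagonal fun _ => (d : 𝓞 E) := by
    apply Matrix.ext
    intro j j'
    apply hf
    rw [Matrix.mul_apply, Matrix.diagonal_apply, map_sum]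
    have h1 : ∀ i, f (WS j i * WE i j') = (W i j)⁻¹ * W i j' := by
      intro i
      change f (w i j ^ (d - 1) * w i j') = _
      rw [map_mul, map_pow, hwf, hwf]
      congr 1
      symm
      apply inv_eq_of_mul_eq_one_left
      rw [← pow_succ, Nat.sub_add_cancel hd0, hW]
    rw [Finset.sum_congr rfl (fun i _ => h1 i)]
    split_ifs with h
    · subst h
      rw [Finset.sum_congr rfl (fun i _ => inv_mul_cancel₀ (hWne i j)), Finset.sum_const,
        Finset.card_univ, map_natCast, nsmul_eq_mul, mul_one]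
    · rw [horth j j' h, map_zero]
  have hdet : WS.det * WE.det = ((d ^ d : ℕ) : 𝓞 E) := by
    rw [← Matrix.det_mul, hprod, Matrix.det_diagonal, Finset.prod_const, Finset.card_univ,
      Nat.cast_pow]
  -- at the prime `l`
  have hatl : ∀ (q : ℕ) [hq : Fact q.Prime] (j : E →+* ℂ_[q]), q = l →
      ‖j ((ME.det : 𝓞 E) : E)‖ = 1 := by
    intro q hq j hql
    subst hql
    let g : 𝓞 E →+* ℂ_[q] := j.comp (algebraMap (𝓞 E) E)
    have hgx : ∀ x : 𝓞 E, g x = j x := fun x => rfl
    have h1 : ‖j (WE.det : 𝓞 E)‖ = 1 := by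
      apply norm_one_of_dvd j (N := d ^ d)
      · intro h
        exact hld (hq.out.dvd_of_dvd_pow h)
      · exact ⟨WS.det, by rw [← hdet, mul_comm]⟩
    have hgw : ∀ i j, ‖g (w i j)‖ = 1 := by
      intro i j
      have h4 : g (w i j) ^ d = 1 := by rw [← map_pow, hwd, map_one]
      have h5 := congrArg norm h4
      rw [norm_pow, norm_one] at h5
      exact (pow_eq_one_iff_of_nonneg (norm_nonneg _) hd0.ne').1 h5
    have hgy : ∀ i j, ‖g (y i j) - 1‖ < 1 := by
      intro i j
      apply root_near_one (a := a)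
      rw [← map_pow, hyd, map_one]
    have hgy1 : ∀ i j, ‖g (y i j)‖ = 1 := fun i j => norm_one_of_close norm_one (hgy i j)
    have h2 := det_diff (g.mapMatrix ME) (g.mapMatrix WE) (by
        intro i j
        change ‖g (w i j * y i j)‖ ≤ 1
        rw [map_mul, norm_mul, hgw, hgy1, mul_one]) (by
        intro i j
        change ‖g (w i j)‖ ≤ 1
        rw [hgw]) (by
        intro i j
        change ‖g (w i j * y i j) - g (w i j)‖ < 1
        have h3 : g (w i j * y i j) - g (w i j) = g (w i j) * (g (y i j) - 1) := by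
          rw [map_mul]
          ring
        rw [h3, norm_mul, hgw, one_mul]
        exact hgy i j)
    rw [← RingHom.map_det, ← RingHom.map_det] at h2
    exact norm_one_of_close (h1 : ‖g WE.det‖ = 1) h2
  have hM : (Matrix.of fun i j => W i j * Z i j).det = f ME.det := by
    rw [RingHom.map_det]
    congr 1
    ext i j
    change _ = f (w i j * y i j)
    rw [map_mul, hwf, hyf, Matrix.of_apply]
  rw [hM]
  rcases hp2 with hp2 | hp2
  · exact hatl p j₀ hp2
  · rw [hfx]
    have hne : ME.det ≠ 0 := by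
      intro h0
      obtain ⟨j⟩ : Nonempty (E →+* ℂ_[l]) := inferInstance
      have h1 := hatl l j rfl
      rw [h0] at h1
      simp at h1
    refine norm_one_of_small j₀ hne (d !) ?_ ?_
    · intro σ
      let g : 𝓞 E →+* ℂ := σ.comp (algebraMap (𝓞 E) E)
      have h1 : σ ((ME.det : 𝓞 E) : E) = (g.mapMatrix ME).det := by
        rw [← RingHom.map_det]
        rfl
      rw [h1]
      have h2 := Matrix.det_le (A := g.mapMatrix ME) (abv := (IsAbsoluteValue.toAbsoluteValue
        (norm : ℂ → ℝ))) (x := 1) (by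
          intro i j
          change ‖g (w i j * y i j)‖ ≤ 1
          rw [map_mul, norm_mul]
          have h3 : ‖g (w i j)‖ = 1 := by
            have h4 : g (w i j) ^ d = 1 := by rw [← map_pow, hwd, map_one]
            have h5 := congrArg norm h4
            rw [norm_pow, norm_one] at h5
            exact (pow_eq_one_iff_of_nonneg (norm_nonneg _) hd0.ne').1 h5
          have h6 : ‖g (y i j)‖ = 1 := by
            have h4 : g (y i j) ^ l ^ a = 1 := by rw [← map_pow, hyd, map_one]
            have h5 := congrArg norm h4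
            rw [norm_pow, norm_one] at h5
            exact (pow_eq_one_iff_of_nonneg (norm_nonneg _)
              (pow_pos hl.out.pos _).ne').1 h5
          rw [h3, h6, one_mul])
      rw [one_pow, nsmul_eq_mul, mul_one] at h2
      exact h2
    · have h1 : Module.finrank ℚ E = Nat.totient N :=
        IsCyclotomicExtension.finrank (n := N) E (Polynomial.cyclotomic.irreducible_rat hN0)
      rw [h1]
      refine lt_of_le_of_lt ?_ hp2
      rw [← hN]
      exact Nat.pow_le_pow_right (Nat.factorial_pos _) (Nat.totient_le N)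

/-- Let `W` be a square matrix of size `d` whose entries are `d`-th roots of unity and whose
columns are orthogonal. Multiply the entries by arbitrary roots of unity of order a power of a
prime `l` which does not divide `d`. The determinant is a unit at `p` if `p = l` or
`p > (d!)^(d r)`, `r` the order of the roots of unity. -/
theorem det_gen {l a : ℕ} [hl : Fact l.Prime] (hld : ¬ l ∣ Fintype.card ι)
    (hp2 : p = l ∨ (Fintype.card ι)! ^ (l ^ a * Fintype.card ι) < p) (W Z : ι → ι → ℂ_[p])
    (hW : ∀ i j, W i j ^ Fintype.card ι = 1) (hZ : ∀ i j, Z i j ^ l ^ a = 1)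
    (horth : ∀ j j', j ≠ j' → ∑ i, (W i j)⁻¹ * W i j' = 0) :
    ‖(Matrix.of fun i j => W i j * Z i j).det‖ = 1 := by
  have hd0 : 0 < Fintype.card ι :=
    Nat.pos_of_ne_zero (by intro h; rw [h] at hld; exact hld (dvd_zero _))
  have : NeZero (l ^ a * Fintype.card ι) := ⟨(mul_pos (pow_pos hl.out.pos _) hd0).ne'⟩
  have := cyc (l ^ a * Fintype.card ι)
  exact det_gen_aux (E := CyclotomicField (l ^ a * Fintype.card ι) ℚ) rfl hld hp2 W Z hW hZ horth

end

end Pool.Agent.H512.G
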